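import Pool.Agent.NH.Crs
import Pool.Agent.NH.Far
import Pool.Agent.NH.Red
import Pool.Agent.NH.Avg
import Pool.Agent.NH.Fix
import Pool.Agent.NH.RS
import Pool.Agent.NH.Blk
import Pool.Agent.NH.Sub
import Pool.Agent.NH.Dec
import Pool.Agent.NH.N1
import Pool.Agent.NH.NA
import Pool.Agent.NH.NB
import Pool.Agent.NH.N
import Pool.Agent.NH.M
import Pool.Agent.NH.Diag
import Pool.Agent.NH.Comp
import Pool.Agent.NH.Up
import Pool.Agent.NH.Outer
import Pool.Agent.NH.Lin
import Pool.Agent.NH.ParU
import Pool.Agent.NH.FinalU

/-!
# MP_4ed1f9_lc: the negation hierarchy for deterministic decomposable circuits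

Models of a deterministic decomposable circuit with NOT gates are counted in one pass. For every
`t ≥ 1` such circuits of linear size with `t + 1` nested negations compute functions which circuits
of size `2 ^ (n ^ ε)` with `t` nested negations do not approximate better than a constant.

The definitions are in `Pool/Agent/NH/Circ.lean`.
-/

set_option autoImplicit false

namespace Pool.Agent.Results.MP_4ed1f9_lc.NegationHierarchy

open Finset Pool.Agent.NH

/-- There are `c > 0` and `C` such that for all `t, n ≥ 1` there is a Boolean function `F` of `n`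
variables with the following properties, where `α = c * n ^ (1 / (2 ^ (t + 1) - 1))`.
* The complement of `F` is computed by a deterministic gate with at most `t` nested negations of a
  circuit with at most `C * n` gates whose leaves are literals or constants; so one more NOT gate
  gives `F` with at most `t + 1` nested negations.
* There is a 3-CNF formula `φ (x, y)` with at most `C * n` variables `y` and `C * n` clauses which
  for given `x` is satisfied by exactly one `y` if `F x` is true and by none if `F x` is false.
* The number of models of `F` is between `2 ^ n / 5` and `2 ^ n / 2`.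
* Let `g` be a gate with at most `t` nested negations of a circuit with `s` gates whose leaves
  compute arbitrary functions of at most `α` variables. If all OR gates below `g` are deterministic,
  then `g` agrees with `F` on at most `s * 2 ^ n / 2 ^ α` more points than the constant `false`. If
  `g ≤ F`, and if the OR gates above the negations are deterministic or not, then `g` has at most
  `s * 2 ^ n / 2 ^ α` models. -/
theorem result : ∃ (c : ℝ) (C : ℕ), 0 < c ∧ ∀ t n : ℕ, 1 ≤ t → 1 ≤ n →
    ∃ F : (Fin n → Bool) → Bool,
    (∃ L : List (Gate (Fin n)), IsCircuit 1 L ∧ L.length ≤ C * n ∧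
      ∃ g ∈ L, g.negs ≤ t ∧ g.det = true ∧ ∀ x, g.f x = !F x) ∧
    (∃ (s : ℕ) (φ : CNF (Fin n ⊕ Fin s)), s ≤ C * n ∧ φ.length ≤ C * n ∧
      (∀ K ∈ φ, K.length ≤ 3) ∧
      ∀ x, (F x = true → ∃! y : Fin s → Bool, Sat φ (Sum.elim x y)) ∧
        (F x = false → ∀ y : Fin s → Bool, ¬ Sat φ (Sum.elim x y))) ∧
    (2 ^ n ≤ 5 * (univ.filter fun x => F x = true).card ∧
      2 * (univ.filter fun x => F x = true).card ≤ 2 ^ n) ∧
    ∀ (k : ℕ) (L : List (Gate (Fin n))), (k : ℝ) ≤ c * n ^ (1 / (2 ^ (t + 1) - 1) : ℝ) →
      IsCircuit k L → ∀ g ∈ L, g.negs ≤ t →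
      (g.det = true →
        (2 : ℝ) ^ (c * n ^ (1 / (2 ^ (t + 1) - 1) : ℝ)) *
          ((univ.filter fun x => g.f x = F x).card - (univ.filter fun x => F x = false).card) ≤
          L.length * 2 ^ n) ∧
      ((∀ x, g.f x = true → F x = true) →
        (2 : ℝ) ^ (c * n ^ (1 / (2 ^ (t + 1) - 1) : ℝ)) * (univ.filter fun x => g.f x = true).card ≤
          L.length * 2 ^ n) :=
  thm_FinalU
    (thm_ParU thm_Lin
      (thm_Blk (thm_Fix thm_Crs thm_Far) (thm_RS thm_Crs thm_Far))
      (thm_N1 (thm_Fix thm_Crs thm_Far))
      (thm_N (thm_NA thm_Far thm_Red thm_Avg thm_Sub) (thm_NB thm_Crs thm_Far) thm_Sub)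
      (thm_M thm_Dec thm_Sub) (thm_Up thm_Diag thm_Comp))
    thm_Outer (thm_M thm_Dec thm_Sub)

end Pool.Agent.Results.MP_4ed1f9_lc.NegationHierarchy
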